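import Pool.Agent.Q31.GLW.Stm

/-!
# Project GLW: reduction of words
-/

set_option autoImplicit false

namespace Pool.Agent.Q252.GLW

open Pool.Agent.Q31.GLW

section

variable {F V : Type} [Field F] [AddCommGroup V] [Module F V]

theorem ev_append (h : V ≃ₗ[F] V) (L L' : List ((V ≃ₗ[F] V) × Bool)) :
    ev h (L ++ L') = ev h L' * ev h L := by
  induction L with
  | nil => simp [ev]
  | cons a L ih => rw [List.cons_append, ev, ev, ih, mul_assoc]

theorem sc_comm {k : V ≃ₗ[F] V} (hk : Sc k) (g : V ≃ₗ[F] V) : k * g = g * k := by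
  obtain ⟨c, hc⟩ := hk
  ext v
  change k (g v) = g (k v)
  rw [hc, hc, map_smul]

theorem act_ne (h : V ≃ₗ[F] V) {e e' : Bool} (hne : e' ≠ e) : act h e' * act h e = 1 := by
  cases e <;> cases e' <;> simp_all [act]

theorem pair_eq (h : V ≃ₗ[F] V) {a b : (V ≃ₗ[F] V) × Bool} (hs : Sc a.1) (hne : a.2 ≠ b.2) :
    (act h a.2 * a.1) * (act h b.2 * b.1) = a.1 * b.1 := by
  have h1 : a.1 * act h b.2 = act h b.2 * a.1 := sc_comm hs _
  calc (act h a.2 * a.1) * (act h b.2 * b.1) = act h a.2 * (a.1 * act h b.2) * b.1 := by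
        simp only [mul_assoc]
    _ = (act h a.2 * act h b.2) * (a.1 * b.1) := by rw [h1]; simp only [mul_assoc]
    _ = a.1 * b.1 := by rw [act_ne h hne, one_mul]

theorem not_rd {L : List ((V ≃ₗ[F] V) × Bool)} (hL : ¬ Rd L) :
    ∃ (A : List ((V ≃ₗ[F] V) × Bool)) (b a : (V ≃ₗ[F] V) × Bool)
      (B : List ((V ≃ₗ[F] V) × Bool)), L = A ++ b :: a :: B ∧ a.2 ≠ b.2 ∧ Sc a.1 := by
  induction L with
  | nil => exact absurd (by simp [Rd]) hL
  | cons x L ih =>
    cases L with
    | nil => exact absurd (by simp [Rd]) hL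
    | cons y M =>
      by_cases hR : Rd (y :: M)
      · have h1 : ¬ (y.2 = x.2 ∨ ¬ Sc y.1) := fun h => hL ⟨h, hR⟩
        push Not at h1
        exact ⟨[], x, y, M, rfl, h1.1, h1.2⟩
      · obtain ⟨A, b, a, B, h1, h2, h3⟩ := ih hR
        exact ⟨x :: A, b, a, B, by rw [h1]; rfl, h2, h3⟩

theorem lastE_append (e : Bool) (M : List ((V ≃ₗ[F] V) × Bool)) (b : (V ≃ₗ[F] V) × Bool) :
    lastE e (M ++ [b]) = b.2 := by
  induction M generalizing e with
  | nil => rfl
  | cons a M ih => exact ih a.2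

/-- the conclusion -/
def Co (K : Subgroup (V ≃ₗ[F] V)) (h x : V ≃ₗ[F] V) : Prop :=
  (∃ k ∈ K, IsConj x k) ∨ ∃ (a : (V ≃ₗ[F] V) × Bool) (M : List ((V ≃ₗ[F] V) × Bool)),
      a.1 ∈ K ∧ (∀ b ∈ M, b.1 ∈ K) ∧ Cyc a M ∧ IsConj x (ev h (a :: M))

theorem Co.of_conj {K : Subgroup (V ≃ₗ[F] V)} {h x y : V ≃ₗ[F] V} (hxy : IsConj x y)
    (hy : Co K h y) : Co K h x := by
  rcases hy with ⟨k, hk, hc⟩ | ⟨a, M, ha, hM, hcy, hc⟩
  · exact Or.inl ⟨k, hk, hxy.trans hc⟩
  · exact Or.inr ⟨a, M, ha, hM, hcy, hxy.trans hc⟩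

theorem conj_swap (x y : V ≃ₗ[F] V) : IsConj (x * y) (y * x) :=
  isConj_iff.2 ⟨y, by group⟩

theorem mul_K {K : Subgroup (V ≃ₗ[F] V)} {h : V ≃ₗ[F] V} {n : ℕ}
    (ih : ∀ L : List ((V ≃ₗ[F] V) × Bool), L.length < n → (∀ b ∈ L, b.1 ∈ K) → Co K h (ev h L))
    {L : List ((V ≃ₗ[F] V) × Bool)} (hL : L.length < n) (hK : ∀ b ∈ L, b.1 ∈ K)
    {κ : V ≃ₗ[F] V} (hκ : κ ∈ K) : Co K h (ev h L * κ) := by
  cases L with
  | nil => exact Or.inl ⟨κ, hκ, by rw [ev, one_mul]⟩
  | cons c L =>
    have h1 : ev h (c :: L) * κ = ev h ((c.1 * κ, c.2) :: L) := by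
      simp only [ev, mul_assoc]
    rw [h1]
    apply ih
    · simpa using hL
    · intro b hb
      rcases List.mem_cons.1 hb with rfl | hb
      · exact K.mul_mem (hK c (List.mem_cons_self)) hκ
      · exact hK b (List.mem_cons_of_mem _ hb)

theorem core (K : Subgroup (V ≃ₗ[F] V)) (h : V ≃ₗ[F] V) (n : ℕ) :
    ∀ L : List ((V ≃ₗ[F] V) × Bool), L.length = n → (∀ b ∈ L, b.1 ∈ K) → Co K h (ev h L) := by
  induction n using Nat.strong_induction_on with
  | _ n ih =>
    intro L hn hK
    have ih' : ∀ L : List ((V ≃ₗ[F] V) × Bool), L.length < n → (∀ b ∈ L, b.1 ∈ K) →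
        Co K h (ev h L) := fun L hl hk => ih _ hl L rfl hk
    cases L with
    | nil => exact Or.inl ⟨1, K.one_mem, by rw [ev]⟩
    | cons a M =>
      by_cases hc : Cyc a M
      · exact Or.inr ⟨a, M, hK a List.mem_cons_self, fun b hb => hK b (List.mem_cons_of_mem _ hb),
          hc, IsConj.refl _⟩
      by_cases hR : Rd (a :: M)
      · have h1 : ¬ (a.2 = lastE a.2 M ∨ ¬ Sc a.1) := fun h => hc ⟨hR, h⟩
        push Not at h1
        obtain ⟨h1, h2⟩ := h1
        rcases List.eq_nil_or_concat M with rfl | ⟨M', b, rfl⟩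
        · exact absurd rfl h1
        · rw [List.concat_eq_append] at *
          rw [lastE_append] at h1
          have h3 : IsConj (ev h (a :: (M' ++ [b]))) (ev h M' * (a.1 * b.1)) := by
            have h4 : ev h (a :: (M' ++ [b])) =
                (act h b.2 * b.1) * (ev h M' * (act h a.2 * a.1)) := by
              rw [ev, ev_append]
              simp only [ev, one_mul, mul_assoc]
            have h5 : ev h M' * (a.1 * b.1) =
                (ev h M' * (act h a.2 * a.1)) * (act h b.2 * b.1) := by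
              rw [← pair_eq h h2 h1]
              simp only [mul_assoc]
            rw [h4, h5]
            exact conj_swap _ _
          refine Co.of_conj h3 (mul_K ih' ?_ ?_ ?_)
          · simp only [List.length_cons, List.length_append, List.length_nil] at hn
            omega
          · intro c hc'
            exact hK c (List.mem_cons_of_mem _ (List.mem_append_left _ hc'))
          · exact K.mul_mem (hK a List.mem_cons_self)
              (hK b (List.mem_cons_of_mem _ (List.mem_append_right _ (List.mem_singleton.2 rfl))))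
      · obtain ⟨A, b, c, B, h1, h2, h3⟩ := not_rd hR
        rw [h1] at hn hK ⊢
        have h4 : IsConj (ev h (A ++ b :: c :: B)) (ev h (B ++ A) * (c.1 * b.1)) := by
          have h5 : ev h (A ++ b :: c :: B) = (ev h B * (c.1 * b.1)) * ev h A := by
            rw [ev_append, ev, ev, ← pair_eq h h3 h2]
            simp only [mul_assoc]
          have h6 : ev h (B ++ A) * (c.1 * b.1) = ev h A * (ev h B * (c.1 * b.1)) := by
            rw [ev_append, mul_assoc]
          rw [h5, h6]
          exact conj_swap _ _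
        refine Co.of_conj h4 (mul_K ih' ?_ ?_ ?_)
        · simp only [List.length_cons, List.length_append] at hn ⊢
          omega
        · intro d hd
          rcases List.mem_append.1 hd with hd | hd
          · exact hK d (by simp [hd])
          · exact hK d (by simp [hd])
        · exact K.mul_mem (hK c (by simp)) (hK b (by simp))

theorem word (K : Subgroup (V ≃ₗ[F] V)) (h x : V ≃ₗ[F] V)
    (hx : x ∈ Subgroup.closure ((K : Set (V ≃ₗ[F] V)) ∪ {h})) :
    ∃ k ∈ K, ∃ M : List ((V ≃ₗ[F] V) × Bool), (∀ b ∈ M, b.1 ∈ K) ∧ x = k * ev h M := by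
  induction hx using Subgroup.closure_induction_left with
  | one => exact ⟨1, K.one_mem, [], by simp, by simp [ev]⟩
  | mul_left y hy z _ ih =>
    obtain ⟨k, hk, M, hM, rfl⟩ := ih
    rcases hy with hy | hy
    · exact ⟨y * k, K.mul_mem hy hk, M, hM, by rw [mul_assoc]⟩
    · rw [Set.mem_singleton_iff] at hy
      subst hy
      refine ⟨1, K.one_mem, M ++ [(k, true)], ?_, ?_⟩
      · intro b hb
        rcases List.mem_append.1 hb with hb | hb
        · exact hM b hb
        · rw [List.mem_singleton.1 hb]; exact hk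
      · rw [ev_append]
        simp [ev, act, mul_assoc]
  | inv_mul_cancel y hy z _ ih =>
    obtain ⟨k, hk, M, hM, rfl⟩ := ih
    rcases hy with hy | hy
    · exact ⟨y⁻¹ * k, K.mul_mem (K.inv_mem hy) hk, M, hM, by rw [mul_assoc]⟩
    · rw [Set.mem_singleton_iff] at hy
      subst hy
      refine ⟨1, K.one_mem, M ++ [(k, false)], ?_, ?_⟩
      · intro b hb
        rcases List.mem_append.1 hb with hb | hb
        · exact hM b hb
        · rw [List.mem_singleton.1 hb]; exact hk
      · rw [ev_append]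
        simp [ev, act, mul_assoc]

end

theorem t_RED : S_RED := by
  intro F V _ _ _ K h x hx
  obtain ⟨k, hk, M, hM, rfl⟩ := word K h x hx
  have h1 : Co K h (ev h M * k) := mul_K (n := M.length + 1)
    (fun L _ hL => core K h _ L rfl hL) (Nat.lt_succ_self _) hM hk
  exact Co.of_conj (conj_swap k (ev h M)) h1

end Pool.Agent.Q252.GLW
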