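import Pool.Agent.Q31.GLW.Stm

/-!
# Project GLW: the construction of a bijection from countably many dense sets
-/

set_option autoImplicit false

namespace Pool.Agent.Q252.GLW.RS

open Pool.Agent.Q31.GLW
open Module Submodule

section

variable {F V : Type} [Field F] [AddCommGroup V] [Module F V] {U : Submodule F V} {g : U ≃ₗ[F] U}

theorem ic_ne {Z : Submodule F V} (h : IC Z) : ∃ z, z ∉ Z := by
  by_contra hc
  push Not at hc
  have h1 : Z = ⊤ := Submodule.eq_top_iff'.2 hc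
  apply h
  rw [h1]
  have : Subsingleton (V ⧸ (⊤ : Submodule F V)) := Submodule.Quotient.subsingleton_iff.2 rfl
  infer_instance

theorem ext1 (hadd : S_ADD) (hics : S_ICS) (hU : IC U) {p : V →ₗ.[F] V} (hp : Cond U g p)
    (e : Bool) (a : V) : ∃ q : V →ₗ.[F] V, Cond U g q ∧ p ≤ q ∧ a ∈ side q e := by
  by_cases ha : a ∈ side p e
  · exact ⟨p, hp, le_rfl, ha⟩
  · have h1 := hics F V U g p ⊥ hU hp inferInstance
    obtain ⟨z, hz⟩ := ic_ne h1
    have hz' : z ∉ side p (!e) := by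
      intro h2
      apply hz
      rw [sup_bot_eq]
      cases e
      · exact Submodule.mem_sup_left h2
      · exact Submodule.mem_sup_right h2
    obtain ⟨q, hq, hpq, hs, _, _⟩ := hadd F V U g p e a z hp ha hz'
    refine ⟨q, hq, hpq, ?_⟩
    rw [hs]
    exact Submodule.mem_sup_right (Submodule.mem_span_singleton_self a)

theorem side_mono {p q : V →ₗ.[F] V} (h : p ≤ q) (e : Bool) : side p e ≤ side q e := by
  cases e
  · rintro _ ⟨x, rfl⟩
    exact ⟨⟨x, h.1 x.2⟩, (h.2 rfl).symm⟩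
  · exact h.1

theorem step (hadd : S_ADD) (hics : S_ICS) (hU : IC U) {D : Set (V →ₗ.[F] V)}
    (hD : ∀ p, Cond U g p → ∃ q ∈ D, Cond U g q ∧ p ≤ q) (v : V) (p : {p // Cond U g p}) :
    ∃ p' : {p // Cond U g p}, p.1 ≤ p'.1 ∧ (∃ q ∈ D, q ≤ p'.1) ∧ v ∈ side p'.1 true ∧
      v ∈ side p'.1 false := by
  obtain ⟨q, hqD, hq, hpq⟩ := hD p.1 p.2
  obtain ⟨q1, hq1, hqq1, h1⟩ := ext1 hadd hics hU hq true v
  obtain ⟨q2, hq2, hqq2, h2⟩ := ext1 hadd hics hU hq1 false v
  exact ⟨⟨q2, hq2⟩, hpq.trans (hqq1.trans hqq2), ⟨q, hqD, hqq1.trans hqq2⟩,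
    side_mono hqq2 true h1, h2⟩

/-- the starting map -/
def p0 (g : U ≃ₗ[F] U) : V →ₗ.[F] V := ⟨U, U.subtype ∘ₗ g.toLinearMap⟩

theorem p0_cond : Cond U g (p0 g) := by
  refine ⟨?_, ⟨⊥, inferInstance, by simp [p0]⟩, ?_⟩
  · have key : ∀ x : U, ((g x : U) : V) = 0 → (x : V) = 0 := by
      intro x h1
      have h2 : g x = 0 := Subtype.ext h1
      have h3 : x = 0 := by
        apply g.injective
        rw [h2, map_zero]
      rw [h3]
      rfl
    intro x hx
    exact key x hx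
  · intro u x hx
    have h1 : x = u := Subtype.ext hx
    rw [h1]
    rfl

end

theorem t_RS (hadd : S_ADD) (hics : S_ICS) : S_RS := by
  intro F V _ _ _ _ U g hU D hD
  obtain ⟨v, hv⟩ := exists_surjective_nat V
  choose f hf1 hf2 hf3 hf4 using fun n => step hadd hics hU (hD n) (v n)
  let P : ℕ → {p // Cond U g p} := fun n => Nat.rec ⟨p0 g, p0_cond⟩ (fun n p => f n p) n
  have hP : ∀ n, P (n + 1) = f n (P n) := fun n => rfl
  have hmono : Monotone (fun n => (P n).1) :=
    monotone_nat_of_le_succ fun n => by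
      change (P n).1 ≤ (P (n + 1)).1
      rw [hP]
      exact hf1 n (P n)
  have hdom : ∀ w, ∃ n, w ∈ (P n).1.domain := fun w => by
    obtain ⟨n, rfl⟩ := hv w
    refine ⟨n + 1, ?_⟩
    rw [hP]
    exact hf3 n (P n)
  choose ν hν using hdom
  let H : V → V := fun w => (P (ν w)).1 ⟨w, hν w⟩
  have hH : ∀ n (x : (P n).1.domain), (P n).1 x = H x := by
    intro n x
    rcases le_total n (ν x) with h | h
    · exact (hmono h).2 rfl
    · exact ((hmono h).2 rfl).symm
  have hboth : ∀ x y : V, ∃ n, x ∈ (P n).1.domain ∧ y ∈ (P n).1.domain := fun x y =>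
    ⟨max (ν x) (ν y), (hmono (le_max_left _ _)).1 (hν x), (hmono (le_max_right _ _)).1 (hν y)⟩
  let L : V →ₗ[F] V :=
    { toFun := H
      map_add' := by
        intro x y
        obtain ⟨n, hx, hy⟩ := hboth x y
        have h1 := hH n ⟨x, hx⟩
        have h2 := hH n ⟨y, hy⟩
        have h3 := hH n (⟨x, hx⟩ + ⟨y, hy⟩)
        rw [LinearPMap.map_add, h1, h2] at h3
        exact h3.symm
      map_smul' := by
        intro c x
        have h1 := hH (ν x) ⟨x, hν x⟩
        have h3 := hH (ν x) (c • ⟨x, hν x⟩)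
        rw [LinearPMap.map_smul, h1] at h3
        exact h3.symm }
  have hbij : Function.Bijective L := by
    constructor
    · rw [injective_iff_map_eq_zero]
      intro x hx
      exact (P (ν x)).2.1 ⟨x, hν x⟩ hx
    · intro y
      obtain ⟨n, rfl⟩ := hv y
      have h1 : v n ∈ side (P (n + 1)).1 false := by
        rw [hP]
        exact hf4 n (P n)
      obtain ⟨x, hx⟩ := h1
      exact ⟨x, (hH (n + 1) x).symm.trans hx⟩
  refine ⟨LinearEquiv.ofBijective L hbij, ?_, ?_⟩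
  · intro u
    have h1 := hH 0 u
    exact h1.symm
  · intro n
    obtain ⟨q, hq, hle⟩ := hf2 n (P n)
    refine ⟨q, hq, fun x => ?_⟩
    have h1 : q x = (P (n + 1)).1 ⟨x, (show q ≤ (P (n + 1)).1 from hle).1 x.2⟩ :=
      (show q ≤ (P (n + 1)).1 from hle).2 rfl
    rw [h1]
    exact (hH (n + 1) ⟨x, (show q ≤ (P (n + 1)).1 from hle).1 x.2⟩).symm

end Pool.Agent.Q252.GLW.RS
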